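import Pool.Agent.QSX.StmtsG
import Pool.Agent.QSX.StmtsA

/-!
QSX, row LGP: the exponentials of a Lie algebra of strictly upper triangular matrices form a group.
-/

set_option autoImplicit false

namespace Pool.Agent.QSX.H3

open Matrix Finset Pool.Agent.QSX

/-- **Row LGP**. -/
theorem lgp (hB : BchStmt) : LgpStmt := by
  intro R _ _ m n hsu hlie
  refine ⟨{ carrier := {g | ∃ y ∈ n, g = ue y}, mul_mem' := ?_, one_mem' := ?_, inv_mem' := ?_ },
    fun g => Iff.rfl⟩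
  · rintro a b ⟨x, hx, rfl⟩ ⟨y, hy, rfl⟩
    obtain ⟨z, hz, h⟩ := hB R m n hsu hlie x hx y hy
    exact ⟨z, hz, h⟩
  · refine ⟨0, n.zero_mem, ?_⟩
    apply Units.ext
    rw [ue_val SU.zero, mexp_zero]
    rfl
  · rintro a ⟨x, hx, rfl⟩
    refine ⟨-x, n.neg_mem hx, ?_⟩
    apply Units.ext
    rw [ue_inv_val (hsu x hx), ue_val (hsu x hx).neg]

end Pool.Agent.QSX.H3
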